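import Pool.Agent.N880.HP.TwA

/-!
# The product `L(s, χ ψ₁) L(s + i α, χ ψ₂)`
-/

set_option autoImplicit false

open Complex Filter Topology Set MeasureTheory

set_option maxHeartbeats 4000000

namespace Pool.Agent.V8H24.LI

open H385
open Pool.Agent.R321.RC (goodD_mul)
open Pool.Agent.N880.HP (LL LL_eq goodD_rescale)

/-- the factor `n ^ (-i α)` -/
noncomputable def tw (α : ℝ) (n : ℕ) : ℂ := cexp (-(I * α * Real.log n))

lemma tw_norm (α : ℝ) (n : ℕ) : ‖tw α n‖ = 1 := by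
  unfold tw
  rw [Complex.norm_exp]
  have h : (-(I * (α : ℂ) * ((Real.log n : ℝ) : ℂ))).re = 0 := by
    rw [Complex.neg_re, mul_assoc, ← Complex.ofReal_mul, Complex.I_mul_re, Complex.ofReal_im]
    simp
  rw [h, Real.exp_zero]

/-- change of the constant -/
theorem goodU_mono {A B Q : ℝ} {F : ℂ → ℂ} {a : ℕ → ℂ} (hA : 1 ≤ A) (hAB : A ≤ B) (hQ : 1 ≤ Q)
    (h : GoodU A Q F a) : GoodU B Q F a := by
  refine ⟨h.an, ?_, ?_, h.nzr, h.nzl, h.symm, h.ha, h.ld, ?_⟩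
  · intro s h1 h2 h3
    have hx : 1 ≤ Q * s.im := one_le_mul_of_one_le_of_one_le hQ h3
    calc ‖F s‖ ≤ A * (Q * s.im) ^ A := h.growth s h1 h2 h3
      _ ≤ B * (Q * s.im) ^ B :=
          mul_le_mul hAB (Real.rpow_le_rpow_of_exponent_le hx hAB) (by positivity) (by linarith)
  · intro t ht
    exact (inv_anti₀ (by linarith) hAB).trans (h.lower t ht)
  · intro s h1 h2 h3 h4
    exact (h.left s h1 h2 h3 h4).trans hAB

/-- vertical translation -/
theorem goodU_shift {A Q α : ℝ} {F : ℂ → ℂ} {a : ℕ → ℂ} (hA : 1 ≤ A) (hQ : 1 ≤ Q) (hα : 0 ≤ α)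
    (h : GoodU A Q F a) : GoodU (A * (1 + α) ^ A + Real.log (1 + α)) Q
      (fun s => F (s + I * α)) (fun n => a n * tw α n) := by
  have h1α : (1 : ℝ) ≤ 1 + α := by linarith
  have hR : (1 : ℝ) ≤ (1 + α) ^ A := Real.one_le_rpow h1α (by linarith)
  have hl : 0 ≤ Real.log (1 + α) := Real.log_nonneg h1α
  obtain ⟨B, hB⟩ : ∃ B, B = A * (1 + α) ^ A + Real.log (1 + α) := ⟨_, rfl⟩
  have hAB : A ≤ B := by
    have : A ≤ A * (1 + α) ^ A := le_mul_of_one_le_right (by linarith) hR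
    rw [hB]; linarith
  have him : ∀ s : ℂ, (s + I * α).im = s.im + α := by intro s; simp
  have hre : ∀ s : ℂ, (s + I * α).re = s.re := by intro s; simp
  have hcj : ∀ s : ℂ, 1 - (starRingEnd ℂ) (s + I * α) = 1 - (starRingEnd ℂ) s + I * α := by
    intro s
    rw [map_add, map_mul, conj_I, conj_ofReal]
    ring
  have hord : ∀ s : ℂ, analyticOrderAt (fun z => F (z + I * α)) s =
      analyticOrderAt F (s + I * α) := by
    intro s
    have hg : AnalyticAt ℂ (fun z : ℂ => z + I * α) s := by fun_prop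
    have hd : deriv (fun z : ℂ => z + I * α) s ≠ 0 := by simp
    exact analyticOrderAt_comp_of_deriv_ne_zero (f := F) hg hd
  have hdv : ∀ s : ℂ, deriv (fun z => F (z + I * α)) s = deriv F (s + I * α) := by
    intro s
    exact deriv_comp_add_const F (I * α) s
  rw [← hB]
  refine ⟨?_, ?_, ?_, ?_, ?_, ?_, ?_, ?_, ?_⟩
  · intro s hs
    have h2 := h.an (s + I * α) (by rw [him]; linarith)
    exact h2.comp_of_eq (g := F) (f := fun z : ℂ => z + I * α) (by fun_prop) rfl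
  · intro s h1 h2 h3
    have hx : 1 ≤ Q * s.im := one_le_mul_of_one_le_of_one_le hQ h3
    have b := h.growth (s + I * α) (by rw [hre]; exact h1) (by rw [hre]; exact h2)
      (by rw [him]; linarith)
    rw [him] at b
    have e1 : Q * (s.im + α) ≤ (1 + α) * (Q * s.im) := by
      have : α ≤ α * s.im := le_mul_of_one_le_right hα h3
      nlinarith
    have e2 : (Q * (s.im + α)) ^ A ≤ (1 + α) ^ A * (Q * s.im) ^ A := by
      rw [← Real.mul_rpow (by linarith) (by linarith)]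
      exact Real.rpow_le_rpow (by nlinarith) e1 (by linarith)
    have e3 : (Q * s.im) ^ A ≤ (Q * s.im) ^ B := Real.rpow_le_rpow_of_exponent_le hx hAB
    calc ‖F (s + I * α)‖ ≤ A * (Q * (s.im + α)) ^ A := b
      _ ≤ A * ((1 + α) ^ A * (Q * s.im) ^ A) := mul_le_mul_of_nonneg_left e2 (by linarith)
      _ = A * (1 + α) ^ A * (Q * s.im) ^ A := by ring
      _ ≤ B * (Q * s.im) ^ B :=
          mul_le_mul (by rw [hB]; linarith) e3 (by positivity) (by linarith)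
  · intro t ht
    refine (inv_anti₀ (by linarith) hAB).trans ?_
    have e1 : (⟨2, t⟩ : ℂ) + I * α = ⟨2, t + α⟩ := by
      apply Complex.ext <;> simp
    show A⁻¹ ≤ ‖F ((⟨2, t⟩ : ℂ) + I * α)‖
    rw [e1]
    exact h.lower (t + α) (by linarith)
  · intro s h1 h2
    exact h.nzr (s + I * α) (by rw [hre]; exact h1) (by rw [him]; linarith)
  · intro s h1 h2
    exact h.nzl (s + I * α) (by rw [hre]; exact h1) (by rw [him]; linarith)
  · intro s h1 h2 h3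
    rw [hord, hord, ← hcj]
    exact h.symm (s + I * α) (by rw [hre]; exact h1) (by rw [hre]; exact h2) (by rw [him]; linarith)
  · intro n
    rw [norm_mul, tw_norm, mul_one]
    exact h.ha n
  · intro s h1 h2
    rw [hdv, h.ld (s + I * α) (by rw [hre]; exact h1) (by rw [him]; linarith)]
    congr 1
    refine tsum_congr fun n => ?_
    rcases Nat.eq_zero_or_pos n with hn | hn
    · subst hn
      have h0 : a 0 = 0 := by
        have h2 := h.ha 0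
        rw [ArithmeticFunction.map_zero] at h2
        exact norm_le_zero_iff.1 h2
      rw [h0]; simp
    · have hn0 : (n : ℂ) ≠ 0 := by exact_mod_cast hn.ne'
      rw [neg_add, Complex.cpow_add _ _ hn0]
      have e1 : (n : ℂ) ^ (-(I * (α : ℂ))) = tw α n := by
        unfold tw
        rw [Complex.cpow_def_of_ne_zero hn0, ← Complex.natCast_log]
        congr 1
        ring
      rw [e1]
      ring
  · intro s h1 h2 h3 h4
    have b := h.left (s + I * α) (by rw [hre]; exact h1) (by rw [hre]; exact h2)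
      (by rw [him]; linarith) h4
    rw [hdv, hdv, ← hcj]
    have hx : 0 < Q * s.im := by
      have : 1 ≤ Q * s.im := one_le_mul_of_one_le_of_one_le hQ h3
      linarith
    have hs0 : 0 < s.im := by linarith
    have e1 : Real.log (Q * (s + I * α).im) = Real.log (Q * s.im) +
        Real.log ((s.im + α) / s.im) := by
      rw [him, ← Real.log_mul hx.ne' (by positivity)]
      congr 1
      field_simp
    have e2 : ‖((Real.log ((s.im + α) / s.im) : ℝ) : ℂ)‖ ≤ Real.log (1 + α) := by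
      have hge : 1 ≤ (s.im + α) / s.im := by
        rw [le_div_iff₀ hs0]; linarith
      rw [Complex.norm_real, Real.norm_of_nonneg (Real.log_nonneg hge)]
      refine Real.log_le_log (by linarith) ?_
      rw [div_le_iff₀ hs0]
      nlinarith
    rw [e1] at b
    have hAA : A ≤ A * (1 + α) ^ A := le_mul_of_one_le_right (by linarith) hR
    calc _ = ‖(deriv F (s + I * α) / F (s + I * α) +
          ((Real.log (Q * s.im) + Real.log ((s.im + α) / s.im) : ℝ) : ℂ) +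
          (starRingEnd ℂ) (deriv F (1 - (starRingEnd ℂ) (s + I * α)) /
            F (1 - (starRingEnd ℂ) (s + I * α)))) -
          ((Real.log ((s.im + α) / s.im) : ℝ) : ℂ)‖ := by
          congr 1
          push_cast
          ring
      _ ≤ A + Real.log (1 + α) := (norm_sub_le _ _).trans (add_le_add b e2)
      _ ≤ B := by rw [hB]; linarith

/-- the twisted L-function -/
noncomputable def LT {m : ℕ} (ψ : DirichletCharacter ℂ m) (q : ℕ) (χ : DirichletCharacter ℂ q) :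
    ℂ → ℂ := LL (q * m) (pm χ ψ)

/-- the product `L(s, χ ψ₁) L(s + i α, χ ψ₂)` -/
noncomputable def FA {m₁ m₂ : ℕ} (ψ₁ : DirichletCharacter ℂ m₁) (ψ₂ : DirichletCharacter ℂ m₂)
    (α : ℝ) (q : ℕ) (χ : DirichletCharacter ℂ q) : ℂ → ℂ :=
  fun s => LT ψ₁ q χ s * LT ψ₂ q χ (s + I * α)

/-- its coefficients -/
noncomputable def cA {m₁ m₂ : ℕ} (ψ₁ : DirichletCharacter ℂ m₁) (ψ₂ : DirichletCharacter ℂ m₂)
    (α : ℝ) (n : ℕ) : ℂ := ψ₁ (n : ZMod m₁) + ψ₂ (n : ZMod m₂) * tw α n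

lemma cA_le {m₁ m₂ : ℕ} (ψ₁ : DirichletCharacter ℂ m₁) (ψ₂ : DirichletCharacter ℂ m₂)
    (α : ℝ) (n : ℕ) : ‖cA ψ₁ ψ₂ α n‖ ≤ 2 := by
  unfold cA
  have h1 := DirichletCharacter.norm_le_one ψ₁ (n : ZMod m₁)
  have h2 := DirichletCharacter.norm_le_one ψ₂ (n : ZMod m₂)
  calc _ ≤ ‖ψ₁ (n : ZMod m₁)‖ + ‖ψ₂ (n : ZMod m₂) * tw α n‖ := norm_add_le _ _
    _ ≤ 2 := by rw [norm_mul, tw_norm, mul_one]; linarith

/-- the twisted L-functions satisfy the conditions `GoodU` -/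
theorem good_LT {m : ℕ} (hm : m ≠ 0) (ψ : DirichletCharacter ℂ m) (hψ : ψ.IsPrimitive) :
    ∃ A : ℝ, 1 ≤ A ∧ ∀ (q : ℕ) (χ : DirichletCharacter ℂ q), 1 ≤ q →
    Nat.Coprime q m → χ.IsPrimitive →
    GoodU A ((m : ℝ) * (q : ℝ)) (LT ψ q χ) (fun n => χ (n : ZMod q) *
      ψ (n : ZMod m) * (ArithmeticFunction.vonMangoldt n : ℂ)) := by
  obtain ⟨A, hA, h⟩ := Pool.Agent.N880.HP.good_bothψ hm ψ hψ
  exact ⟨A, hA, fun q χ hq hc hχ => (h q χ hq hc hχ).2⟩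

theorem FA_good {m₁ m₂ : ℕ} (hm₁ : m₁ ≠ 0) (hm₂ : m₂ ≠ 0) (ψ₁ : DirichletCharacter ℂ m₁)
    (ψ₂ : DirichletCharacter ℂ m₂) (hψ₁ : ψ₁.IsPrimitive) (hψ₂ : ψ₂.IsPrimitive) (α : ℝ)
    (hα : 0 ≤ α) :
    ∃ A : ℝ, 1 ≤ A ∧ ∀ (q : ℕ) (χ : DirichletCharacter ℂ q), 1 ≤ q →
    Nat.Coprime q (m₁ * m₂) → χ.IsPrimitive →
    GoodU A ((m₁ : ℝ) * (q : ℝ)) (LT ψ₁ q χ) (fun n => χ (n : ZMod q) *
      ψ₁ (n : ZMod m₁) * (ArithmeticFunction.vonMangoldt n : ℂ)) ∧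
    GoodU A ((m₂ : ℝ) * (q : ℝ)) (fun s => LT ψ₂ q χ (s + I * α)) (fun n => χ (n : ZMod q) *
      ψ₂ (n : ZMod m₂) * (ArithmeticFunction.vonMangoldt n : ℂ) * tw α n) ∧
    GoodD 2 A q (FA ψ₁ ψ₂ α q χ)
      (fun n => χ (n : ZMod q) * cA ψ₁ ψ₂ α n * (ArithmeticFunction.vonMangoldt n : ℂ)) := by
  obtain ⟨A₁, hA₁, hg₁⟩ := good_LT hm₁ ψ₁ hψ₁
  obtain ⟨A₂, hA₂, hg₂⟩ := good_LT hm₂ ψ₂ hψ₂
  obtain ⟨A₃, hA₃⟩ : ∃ A₃, A₃ = A₂ * (1 + α) ^ A₂ + Real.log (1 + α) := ⟨_, rfl⟩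
  have h1α : (1 : ℝ) ≤ 1 + α := by linarith
  have hA31 : 1 ≤ A₃ := by
    have e1 : (1 : ℝ) ≤ (1 + α) ^ A₂ := Real.one_le_rpow h1α (by linarith)
    have e2 : 0 ≤ Real.log (1 + α) := Real.log_nonneg h1α
    have e3 := one_le_mul_of_one_le_of_one_le hA₂ e1
    rw [hA₃]; linarith
  obtain ⟨A, hAd⟩ : ∃ A, A = max A₁ A₃ := ⟨_, rfl⟩
  have hA : 1 ≤ A := by rw [hAd]; exact le_max_of_le_left hA₁
  obtain ⟨B, hB⟩ : ∃ B, B = 2 * A ^ 2 := ⟨_, rfl⟩
  obtain ⟨R, hR⟩ : ∃ R, R = Real.sqrt ((m₁ : ℝ) * m₂) := ⟨_, rfl⟩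
  have hm1 : (1 : ℝ) ≤ m₁ := by exact_mod_cast Nat.one_le_iff_ne_zero.2 hm₁
  have hm2 : (1 : ℝ) ≤ m₂ := by exact_mod_cast Nat.one_le_iff_ne_zero.2 hm₂
  have hR1 : 1 ≤ R := by rw [hR]; exact Real.one_le_sqrt.2 (one_le_mul_of_one_le_of_one_le hm1 hm2)
  have hB1 : 1 ≤ B := by
    have : 1 ≤ A ^ 2 := one_le_pow₀ hA
    rw [hB]; linarith
  have hRB : 1 ≤ R ^ B := Real.one_le_rpow hR1 (by linarith)
  have hlR : 0 ≤ Real.log R := Real.log_nonneg hR1
  have hBC : B ≤ B * R ^ B + 2 * Real.log R := by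
    have : B ≤ B * R ^ B := le_mul_of_one_le_right (by linarith) hRB
    linarith
  have hAC : A ≤ B * R ^ B + 2 * Real.log R := by
    have : A ≤ B := by rw [hB]; nlinarith
    linarith
  refine ⟨B * R ^ B + 2 * Real.log R, by linarith, ?_⟩
  intro q χ hq hc hχ
  have hc1 : Nat.Coprime q m₁ := Nat.Coprime.coprime_mul_right_right hc
  have hc2 : Nat.Coprime q m₂ := Nat.Coprime.coprime_mul_left_right hc
  have hq1 : (1 : ℝ) ≤ q := by exact_mod_cast hq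
  have hmq1 : (1 : ℝ) ≤ (m₁ : ℝ) * q := one_le_mul_of_one_le_of_one_le hm1 hq1
  have hmq2 : (1 : ℝ) ≤ (m₂ : ℝ) * q := one_le_mul_of_one_le_of_one_le hm2 hq1
  have g1 := goodU_mono hA₁ (hAd ▸ le_max_left _ _ : A₁ ≤ A) hmq1 (hg₁ q χ hq hc1 hχ)
  have g2 := goodU_shift hA₂ hmq2 hα (hg₂ q χ hq hc2 hχ)
  rw [← hA₃] at g2
  have g3 := goodU_mono hA31 (hAd ▸ le_max_right _ _ : A₃ ≤ A) hmq2 g2
  refine ⟨goodU_mono hA hAC hmq1 g1, goodU_mono hA hAC hmq2 g3, ?_⟩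
  have h := goodD_mul hA hmq1 hmq2 g1 g3
  have e1 : Real.sqrt (((m₁ : ℝ) * (q : ℝ)) * ((m₂ : ℝ) * (q : ℝ))) = R * q := by
    rw [show ((m₁ : ℝ) * (q : ℝ)) * ((m₂ : ℝ) * (q : ℝ)) = ((m₁ : ℝ) * m₂) * (q : ℝ) ^ 2 by ring,
      Real.sqrt_mul (by positivity), Real.sqrt_sq (by linarith), hR]
  rw [e1, ← hB] at h
  have h2 := goodD_rescale hB1 hq1 hR1 h
  have e3 : (fun n : ℕ => χ (n : ZMod q) * ψ₁ (n : ZMod m₁) * (ArithmeticFunction.vonMangoldt n : ℂ) +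
      χ (n : ZMod q) * ψ₂ (n : ZMod m₂) * (ArithmeticFunction.vonMangoldt n : ℂ) * tw α n) =
      (fun n : ℕ => χ (n : ZMod q) * cA ψ₁ ψ₂ α n * (ArithmeticFunction.vonMangoldt n : ℂ)) := by
    funext n
    unfold cA
    ring
  rw [e3] at h2
  exact h2

end Pool.Agent.V8H24.LI
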