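import Mathlib
import Pool.Agent.W688.TW.Kara
import Pool.Agent.N880.HP.TwB
import Pool.Agent.V8H24.LI.A

/-!
# Weak Selberg orthonormality for `(ψ₁ + ψ₂ n ^ (-i α)) / √2`
-/

set_option autoImplicit false

open Complex Filter Topology Set

namespace Pool.Agent.V8H24.LI

open Pool.Agent.N880.HP (rc_lim rc_summable)

/-- the logarithmic derivative is bounded near `1 - i β` -/
lemma char_lim {N : ℕ} [NeZero N] (ω : DirichletCharacter ℂ N) (β : ℝ) (h : β ≠ 0 ∨ ω ≠ 1) :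
    Tendsto (fun σ : ℝ => (σ : ℂ) * LSeries (fun n : ℕ => ω (n : ZMod N) *
      (ArithmeticFunction.vonMangoldt n : ℂ)) (1 + σ - I * β)) (𝓝[>] 0) (𝓝 0) := by
  obtain ⟨L, hL⟩ : ∃ L : ℂ → ℂ, L = DirichletCharacter.LFunction ω := ⟨_, rfl⟩
  have h1 : (1 : ℂ) - I * β ≠ 1 ∨ ω ≠ 1 := by
    rcases h with h | h
    · left
      intro h2
      have h3 := congrArg Complex.im h2
      simp at h3
      exact h h3
    · exact Or.inr h
  have hne : L (1 - I * β) ≠ 0 := by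
    rw [hL]
    refine DirichletCharacter.LFunction_ne_zero_of_one_le_re ω h1.symm ?_
    simp
  have han : AnalyticAt ℂ L (1 - I * β) := by
    rw [Complex.analyticAt_iff_eventually_differentiableAt]
    rcases h1 with h1 | h1
    · filter_upwards [isOpen_ne.mem_nhds h1] with s hs
      rw [hL]
      exact DirichletCharacter.differentiableAt_LFunction ω s (Or.inl hs)
    · exact Filter.Eventually.of_forall fun s => by
        rw [hL]
        exact DirichletCharacter.differentiableAt_LFunction ω s (Or.inr h1)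
  have hc : ContinuousAt (fun s => deriv L s / L s) (1 - I * β) :=
    han.deriv.continuousAt.div han.continuousAt hne
  have hg : Tendsto (fun σ : ℝ => (1 + (σ : ℂ) - I * β)) (𝓝[>] 0) (𝓝 (1 - I * β)) := by
    have h2 : Continuous (fun σ : ℝ => (1 + (σ : ℂ) - I * β)) := by fun_prop
    have h3 := h2.tendsto 0
    simp only [Complex.ofReal_zero, add_zero] at h3
    exact h3.mono_left nhdsWithin_le_nhds
  have hσ : Tendsto (fun σ : ℝ => (σ : ℂ)) (𝓝[>] 0) (𝓝 0) := by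
    have h2 : Continuous (fun σ : ℝ => (σ : ℂ)) := by fun_prop
    have h3 := h2.tendsto 0
    simp only [Complex.ofReal_zero] at h3
    exact h3.mono_left nhdsWithin_le_nhds
  have h4 := (hσ.mul (hc.tendsto.comp hg)).neg
  rw [zero_mul, neg_zero] at h4
  refine h4.congr' ?_
  filter_upwards [self_mem_nhdsWithin] with σ hσ0
  have hσ0 : (0 : ℝ) < σ := hσ0
  have hre : 1 < (1 + (σ : ℂ) - I * β).re := by simpa using hσ0
  have h5 := DirichletCharacter.LSeries_twist_vonMangoldt_eq ω hre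
  have h6 : (fun n : ℕ => ω (n : ZMod N) * (ArithmeticFunction.vonMangoldt n : ℂ)) =
      ((fun n : ℕ => ω (n : ZMod N)) * fun n : ℕ => (ArithmeticFunction.vonMangoldt n : ℂ)) := rfl
  rw [h6, h5, ← DirichletCharacter.deriv_LFunction_eq_deriv_LSeries ω hre,
    ← DirichletCharacter.LFunction_eq_LSeries ω hre]
  simp only [Function.comp, hL]
  ring

/-- the terms of the twisted series -/
lemma term_eq {N : ℕ} (ω : DirichletCharacter ℂ N) (β σ : ℝ) (n : ℕ) :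
    LSeries.term (fun n : ℕ => ω (n : ZMod N) * (ArithmeticFunction.vonMangoldt n : ℂ))
      (1 + σ - I * β) n =
    ((ArithmeticFunction.vonMangoldt n * (n : ℝ) ^ (-(1 + σ)) : ℝ) : ℂ) *
      (ω (n : ZMod N) * cexp (I * β * Real.log n)) := by
  rcases Nat.eq_zero_or_pos n with hn | hn
  · subst hn
    simp
  · have hn0 : (n : ℂ) ≠ 0 := by exact_mod_cast hn.ne'
    rw [LSeries.term_of_ne_zero hn.ne']
    have e1 : (n : ℂ) ^ (1 + (σ : ℂ) - I * β) =
        (n : ℂ) ^ ((1 + σ : ℝ) : ℂ) * (cexp (I * β * Real.log n))⁻¹ := by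
      rw [sub_eq_add_neg, Complex.cpow_add _ _ hn0]
      congr 1
      · push_cast; rfl
      · rw [Complex.cpow_def_of_ne_zero hn0, ← Complex.natCast_log, ← Complex.exp_neg]
        congr 1
        ring
    have e2 : ((n : ℝ) ^ (-(1 + σ)) : ℝ) = ((n : ℝ) ^ (1 + σ))⁻¹ := Real.rpow_neg (Nat.cast_nonneg n) _
    have e3 : (((n : ℝ) ^ (1 + σ) : ℝ) : ℂ) = (n : ℂ) ^ ((1 + σ : ℝ) : ℂ) := by
      rw [Complex.ofReal_cpow (Nat.cast_nonneg n)]
      simp
    rw [e1]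
    push_cast
    rw [e2]
    push_cast
    rw [e3]
    have h4 : cexp (I * β * Real.log n) ≠ 0 := Complex.exp_ne_zero _
    have h5 : (n : ℂ) ^ ((1 + σ : ℝ) : ℂ) ≠ 0 := by
      rw [Ne, Complex.cpow_eq_zero_iff]
      exact fun h => hn0 h.1
    push_cast at h4 h5 ⊢
    field_simp

lemma term_summable {N : ℕ} (ω : DirichletCharacter ℂ N) (β : ℝ) {σ : ℝ} (hσ : 0 < σ) :
    Summable (fun n : ℕ => ((ArithmeticFunction.vonMangoldt n * (n : ℝ) ^ (-(1 + σ)) : ℝ) : ℂ) *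
      (ω (n : ZMod N) * cexp (I * β * Real.log n))) := by
  have hre : 1 < (1 + (σ : ℂ) - I * β).re := by simpa using hσ
  have h := DirichletCharacter.LSeriesSummable_twist_vonMangoldt ω hre
  refine h.congr fun n => ?_
  exact term_eq ω β σ n

open ArithmeticFunction.vonMangoldt in
/-- the absolute values of a character -/
lemma abs_lim {m : ℕ} [NeZero m] (ψ : DirichletCharacter ℂ m) :
    (∀ σ : ℝ, 0 < σ → Summable (fun n : ℕ => ArithmeticFunction.vonMangoldt n *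
      (n : ℝ) ^ (-(1 + σ)) * ‖ψ (n : ZMod m)‖ ^ 2)) ∧
    Tendsto (fun σ : ℝ => σ * ∑' n : ℕ, ArithmeticFunction.vonMangoldt n *
      (n : ℝ) ^ (-(1 + σ)) * ‖ψ (n : ZMod m)‖ ^ 2) (𝓝[>] 0) (𝓝 1) := by
  classical
  have hdec : ∀ (σ : ℝ) (n : ℕ), ArithmeticFunction.vonMangoldt n *
      (n : ℝ) ^ (-(1 + σ)) * ‖ψ (n : ZMod m)‖ ^ 2 =
      ∑ a : ZMod m, ‖ψ a‖ ^ 2 * (residueClass a n * (n : ℝ) ^ (-(1 + σ))) := by
    intro σ n
    rw [Finset.sum_eq_single (n : ZMod m)]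
    · rw [residueClass, Set.indicator_of_mem (by simp)]
      ring
    · intro a _ ha
      rw [residueClass, Set.indicator_of_notMem (by simpa using fun h => ha h.symm), zero_mul,
        mul_zero]
    · intro h
      exact absurd (Finset.mem_univ _) h
  refine ⟨fun σ hσ => ?_, ?_⟩
  · exact Summable.congr (summable_sum fun a (_ : a ∈ Finset.univ) =>
      (rc_summable a hσ).mul_left (‖ψ a‖ ^ 2)) fun n => (hdec σ n).symm
  · have hlim : Tendsto (fun σ : ℝ => ∑ a : ZMod m, ‖ψ a‖ ^ 2 *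
        (σ * ∑' n : ℕ, residueClass a n * (n : ℝ) ^ (-(1 + σ)))) (𝓝[>] 0)
        (𝓝 (∑ a : ZMod m, ‖ψ a‖ ^ 2 * (m.totient : ℝ)⁻¹)) := by
      refine tendsto_finsetSum _ fun a _ => ?_
      by_cases ha : IsUnit a
      · exact (rc_lim ha).const_mul _
      · rw [MulChar.map_nonunit ψ ha]
        simp
    have hsum : ∑ a : ZMod m, ‖ψ a‖ ^ 2 * (m.totient : ℝ)⁻¹ = 1 := by
      have hφ : (0 : ℝ) < m.totient := by
        exact_mod_cast Nat.totient_pos.2 (NeZero.pos m)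
      have e1 : ∀ a : ZMod m, ‖ψ a‖ ^ 2 = ((1 : MulChar (ZMod m) ℂ) a).re := by
        intro a
        by_cases ha : IsUnit a
        · obtain ⟨b, rfl⟩ := ha
          rw [DirichletCharacter.unit_norm_eq_one ψ b, MulChar.one_apply b.isUnit]
          simp
        · have e2 : (1 : MulChar (ZMod m) ℂ) a = 0 := MulChar.map_nonunit _ ha
          have e3 : ψ a = 0 := MulChar.map_nonunit _ ha
          rw [e2, e3]
          simp
      rw [← Finset.sum_mul, Finset.sum_congr rfl fun a _ => e1 a, ← Complex.re_sum,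
        MulChar.sum_one_eq_card_units, ZMod.card_units_eq_totient]
      simp only [Complex.natCast_re]
      exact mul_inv_cancel₀ hφ.ne'
    rw [hsum] at hlim
    refine hlim.congr' ?_
    filter_upwards [self_mem_nhdsWithin] with σ hσ
    have hσ : (0 : ℝ) < σ := hσ
    rw [tsum_congr (hdec σ), Summable.tsum_finsetSum
      fun a _ => (rc_summable a hσ).mul_left (‖ψ a‖ ^ 2), Finset.mul_sum]
    refine Finset.sum_congr rfl fun a _ => ?_
    rw [tsum_mul_left]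
    ring

theorem selE_A {m₁ m₂ : ℕ} [NeZero m₁] [NeZero m₂] (ψ₁ : DirichletCharacter ℂ m₁)
    (ψ₂ : DirichletCharacter ℂ m₂) (α : ℝ)
    (h : α ≠ 0 ∨ ∃ n : ℕ, Nat.Coprime n (m₁ * m₂) ∧ ψ₁ (n : ZMod m₁) ≠ ψ₂ (n : ZMod m₂))
    (c : ℕ → ℂ) (hc : ∀ n : ℕ, ‖c n‖ ^ 2 = ‖cA ψ₁ ψ₂ α n‖ ^ 2 / 2) : W388.SelE c := by
  classical
  have : NeZero (m₁ * m₂) := ⟨Nat.mul_ne_zero (NeZero.ne _) (NeZero.ne _)⟩
  obtain ⟨ω, hω⟩ : ∃ ω : DirichletCharacter ℂ (m₁ * m₂), ω = H385.pm ψ₁ ψ₂⁻¹ := ⟨_, rfl⟩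
  have hωn : ∀ n : ℕ, ω (n : ZMod (m₁ * m₂)) = ψ₁ (n : ZMod m₁) *
      (starRingEnd ℂ) (ψ₂ (n : ZMod m₂)) := by
    intro n
    rw [hω, H385.pm_apply]
    congr 1
    exact (MulChar.star_apply' ψ₂ (n : ZMod m₂)).symm
  have hcond : α ≠ 0 ∨ ω ≠ 1 := by
    rcases h with h | ⟨n, hn, hne⟩
    · exact Or.inl h
    · right
      intro h1
      apply hne
      have h2 := hωn n
      have hu : IsUnit (n : ZMod (m₁ * m₂)) := (ZMod.isUnit_iff_coprime n (m₁ * m₂)).2 hn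
      rw [h1, MulChar.one_apply hu] at h2
      have hu2 : IsUnit (n : ZMod m₂) :=
        (ZMod.isUnit_iff_coprime n m₂).2 (Nat.Coprime.coprime_mul_left_right hn)
      have h3 : ‖ψ₂ (n : ZMod m₂)‖ = 1 := by
        obtain ⟨b, hb⟩ := hu2
        rw [← hb]
        exact DirichletCharacter.unit_norm_eq_one ψ₂ b
      have h4 : (starRingEnd ℂ) (ψ₂ (n : ZMod m₂)) * ψ₂ (n : ZMod m₂) = 1 := by
        rw [mul_comm, Complex.mul_conj, Complex.normSq_eq_norm_sq, h3]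
        simp
      calc ψ₁ (n : ZMod m₁) = ψ₁ (n : ZMod m₁) *
            ((starRingEnd ℂ) (ψ₂ (n : ZMod m₂)) * ψ₂ (n : ZMod m₂)) := by rw [h4, mul_one]
        _ = (ψ₁ (n : ZMod m₁) * (starRingEnd ℂ) (ψ₂ (n : ZMod m₂))) * ψ₂ (n : ZMod m₂) := by ring
        _ = ψ₂ (n : ZMod m₂) := by rw [← h2, one_mul]
  have hnorm : ∀ n : ℕ, ‖c n‖ ^ 2 = 1 / 2 * ‖ψ₁ (n : ZMod m₁)‖ ^ 2 +
      1 / 2 * ‖ψ₂ (n : ZMod m₂)‖ ^ 2 +
      (ω (n : ZMod (m₁ * m₂)) * cexp (I * α * Real.log n)).re := by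
    intro n
    rw [hc, cA, ← Complex.normSq_eq_norm_sq, Complex.normSq_add, Complex.normSq_eq_norm_sq,
      Complex.normSq_eq_norm_sq, norm_mul, tw_norm, mul_one, hωn, map_mul]
    have e1 : (starRingEnd ℂ) (tw α n) = cexp (I * α * Real.log n) := by
      unfold tw
      rw [← Complex.exp_conj]
      congr 1
      simp only [map_neg, map_mul, conj_I, conj_ofReal]
      ring
    rw [e1, ← mul_assoc]
    ring
  obtain ⟨u1, l1⟩ := abs_lim ψ₁
  obtain ⟨u2, l2⟩ := abs_lim ψ₂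
  have l3 := char_lim ω α hcond
  have hterm : ∀ (σ : ℝ) (n : ℕ), ArithmeticFunction.vonMangoldt n * ‖c n‖ ^ 2 / n *
      (n : ℝ) ^ (-σ) = 1 / 2 * (ArithmeticFunction.vonMangoldt n * (n : ℝ) ^ (-(1 + σ)) *
        ‖ψ₁ (n : ZMod m₁)‖ ^ 2) + 1 / 2 * (ArithmeticFunction.vonMangoldt n *
        (n : ℝ) ^ (-(1 + σ)) * ‖ψ₂ (n : ZMod m₂)‖ ^ 2) +
        (((ArithmeticFunction.vonMangoldt n * (n : ℝ) ^ (-(1 + σ)) : ℝ) : ℂ) *
          (ω (n : ZMod (m₁ * m₂)) * cexp (I * α * Real.log n))).re := by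
    intro σ n
    rw [Complex.re_ofReal_mul]
    rcases Nat.eq_zero_or_pos n with rfl | hn
    · simp
    · have hn0 : (0 : ℝ) < n := by exact_mod_cast hn
      have e1 : (n : ℝ) ^ (-(1 + σ)) = (n : ℝ)⁻¹ * (n : ℝ) ^ (-σ) := by
        rw [neg_add, Real.rpow_add hn0, Real.rpow_neg_one]
      rw [hnorm, e1]
      ring
  have s3 : ∀ σ : ℝ, 0 < σ → Summable (fun n : ℕ =>
      (((ArithmeticFunction.vonMangoldt n * (n : ℝ) ^ (-(1 + σ)) : ℝ) : ℂ) *
          (ω (n : ZMod (m₁ * m₂)) * cexp (I * α * Real.log n))).re) := fun σ hσ =>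
    (Complex.hasSum_re (term_summable ω α hσ).hasSum).summable
  unfold W388.SelE
  refine W688.TW.t_kara (fun n => ArithmeticFunction.vonMangoldt n * ‖c n‖ ^ 2 / n)
    (fun n => ?_) (by simp) (fun σ hσ => ?_) ?_
  · exact div_nonneg (mul_nonneg ArithmeticFunction.vonMangoldt_nonneg (sq_nonneg _))
      (Nat.cast_nonneg n)
  · refine Summable.congr ((((u1 σ hσ).mul_left (1 / 2)).add ((u2 σ hσ).mul_left (1 / 2))).add
      (s3 σ hσ)) fun n => (hterm σ n).symm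
  · have l3r : Tendsto (fun σ : ℝ => ((σ : ℂ) * LSeries (fun n : ℕ => ω (n : ZMod (m₁ * m₂)) *
        (ArithmeticFunction.vonMangoldt n : ℂ)) (1 + σ - I * α)).re) (𝓝[>] 0) (𝓝 0) := by
      have := (Complex.continuous_re.tendsto 0).comp l3
      rw [Complex.zero_re] at this
      exact this
    have hlim := ((l1.const_mul (1 / 2)).add (l2.const_mul (1 / 2))).add l3r
    have e0 : (1 / 2 * 1 + 1 / 2 * 1 + 0 : ℝ) = 1 := by norm_num
    rw [e0] at hlim
    refine hlim.congr' ?_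
    filter_upwards [self_mem_nhdsWithin] with σ hσ
    have hσ : (0 : ℝ) < σ := hσ
    have e3 : LSeries (fun n : ℕ => ω (n : ZMod (m₁ * m₂)) *
        (ArithmeticFunction.vonMangoldt n : ℂ)) (1 + σ - I * α) =
        ∑' n : ℕ, ((ArithmeticFunction.vonMangoldt n * (n : ℝ) ^ (-(1 + σ)) : ℝ) : ℂ) *
          (ω (n : ZMod (m₁ * m₂)) * cexp (I * α * Real.log n)) :=
      tsum_congr fun n => term_eq ω α σ n
    rw [tsum_congr (hterm σ), (((u1 σ hσ).mul_left (1 / 2)).add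
      ((u2 σ hσ).mul_left (1 / 2))).tsum_add (s3 σ hσ),
      ((u1 σ hσ).mul_left (1 / 2)).tsum_add ((u2 σ hσ).mul_left (1 / 2)), tsum_mul_left,
      tsum_mul_left, Complex.re_ofReal_mul, e3, Complex.re_tsum (term_summable ω α hσ)]
    ring

end Pool.Agent.V8H24.LI
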