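import Pool.Agent.N880.HP.TwC
import Pool.Agent.V8H24.LI.B

/-! # Zeros of `L(s, χ ψ₁)` and `L(s, χ ψ₂)` with a fixed difference of the ordinates -/

set_option autoImplicit false
set_option maxHeartbeats 4000000

open Complex Filter Topology MeasureTheory Set

namespace Pool.Agent.V8H24.LI

open H385 (primFamM primFamM_eq primSetM mem_primSetM Rw IX bt WM pm cM cM_pos prim_mass_M)
open H370 (zset mult NN Nd Ns GoodL)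
open W388 (SelE SWu rad rad_squarefree coprime_rad primFamM_rad)
open Pool.Agent.R321.RC (On Cm counts)
open Pool.Agent.R321.RD (Al once)
open Pool.Agent.R321.RG (fam_mono fam_congr fam_add)
open Pool.Agent.N7.MainC (inner_le)
open Pool.Agent.N880.HP (c2 c2_main hh hh_pos hh_le coreAbs swu_scale lin1)

/-- the second function -/
noncomputable def L2 {m : ℕ} (ψ : DirichletCharacter ℂ m) (α : ℝ) (q : ℕ)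
    (χ : DirichletCharacter ℂ q) : ℂ → ℂ := fun s => LT ψ q χ (s + I * α)

/-- the condition that `ψ₁` and `ψ₂ n ^ (-i α)` are different -/
def Diff {m₁ m₂ : ℕ} (ψ₁ : DirichletCharacter ℂ m₁) (ψ₂ : DirichletCharacter ℂ m₂) (α : ℝ) : Prop :=
  α ≠ 0 ∨ ∃ n : ℕ, Nat.Coprime n (m₁ * m₂) ∧ ψ₁ (n : ZMod m₁) ≠ ψ₂ (n : ZMod m₂)

theorem core {m₁ m₂ : ℕ} (hm₁ : m₁ ≠ 0) (hm₂ : m₂ ≠ 0) (ψ₁ : DirichletCharacter ℂ m₁)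
    (ψ₂ : DirichletCharacter ℂ m₂) (hψ₁ : ψ₁.IsPrimitive) (hψ₂ : ψ₂.IsPrimitive) (α : ℝ)
    (hα : 0 ≤ α) (hdiff : Diff ψ₁ ψ₂ α)
    (τ ε : ℝ) (hτ : 0 ≤ τ) (hε : 0 < ε) :
    ∃ K η X0 : ℝ, 1 ≤ K ∧ 0 < η ∧ 1 ≤ X0 ∧
    ∀ (X Y : ℕ) (T : ℝ), X0 ≤ X → K * X ≤ Y → (Y : ℝ) ≤ (X : ℝ) ^ (1 + η) →
      4 * (Real.log X) ^ 2 ≤ T → T ≤ (X : ℝ) ^ τ →
      (∀ q : ℕ, X < q → q ≤ Y → Nat.Coprime q (m₁ * m₂) → ∀ χ : DirichletCharacter ℂ q,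
        χ.IsPrimitive → (1 : ℝ) ≤ (NN (FA ψ₁ ψ₂ α q χ) T (2 * T) : ℝ)) ∧
      primFamM (m₁ * m₂) X Y (fun q χ => 2 * (NN (FA ψ₁ ψ₂ α q χ) T (2 * T) : ℝ) -
          (Ns (FA ψ₁ ψ₂ α q χ) T (2 * T) : ℝ)) ≤
        (c2 (hh τ) + ε) *
          primFamM (m₁ * m₂) X Y (fun q χ => (NN (FA ψ₁ ψ₂ α q χ) T (2 * T) : ℝ)) ∧
      primFamM (m₁ * m₂) X Y (fun q χ => 3 * (NN (FA ψ₁ ψ₂ α q χ) T (2 * T) : ℝ) -
          2 * (Nd (FA ψ₁ ψ₂ α q χ) T (2 * T) : ℝ)) ≤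
        (c2 (hh τ) + ε) *
          primFamM (m₁ * m₂) X Y (fun q χ => (NN (FA ψ₁ ψ₂ α q χ) T (2 * T) : ℝ)) := by
  haveI : NeZero m₁ := ⟨hm₁⟩
  haveI : NeZero m₂ := ⟨hm₂⟩
  have hm0 : m₁ * m₂ ≠ 0 := Nat.mul_ne_zero hm₁ hm₂
  obtain ⟨m, hm⟩ : ∃ m, m = m₁ * m₂ := ⟨_, rfl⟩
  rw [← hm] at hm0
  obtain ⟨A, hA, hgood⟩ := FA_good hm₁ hm₂ ψ₁ ψ₂ hψ₁ hψ₂ α hα
  rw [← hm] at hgood ⊢
  obtain ⟨g0, g1, g2⟩ := c2_main.1 (hh τ) (hh_pos hτ) (hh_le hτ)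
  obtain ⟨Ci, hCi, hinner⟩ := inner_le 1 le_rfl
  obtain ⟨c', hc'⟩ : ∃ c' : ℕ → ℂ, c' = fun n => cA ψ₁ ψ₂ α n / ((Real.sqrt 2 : ℝ) : ℂ) := ⟨_, rfl⟩
  have hn : ∀ n, ‖c' n‖ ^ 2 = ‖cA ψ₁ ψ₂ α n‖ ^ 2 / 2 := by
    intro n
    rw [hc']
    simp only
    rw [norm_div, div_pow, Complex.norm_real, Real.norm_eq_abs, sq_abs,
      Real.sq_sqrt (by norm_num)]
  have hS : SelE c' := selE_A ψ₁ ψ₂ α hdiff c' hn
  have hsc : ∀ u, SWu (cA ψ₁ ψ₂ α) 1 u = 2 * SWu c' 1 u :=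
    swu_scale _ _ (fun n => by rw [hn]; ring)
  obtain ⟨-, -, -, t4, -, -⟩ := Pool.Agent.W261.TW.t_smooth c' hS
  have hms0 := Pool.Agent.N880.HE.msE_main (Pool.Agent.N880.HE.primM_main
    Pool.Agent.N880.HE.blockM_main Pool.Agent.N880.HD.cop_main)
    Pool.Agent.N880.HD.gauss_main Pool.Agent.N880.HD.winC_main Pool.Agent.N880.QF.Rest.rest_main
  have hfam : ∀ X Y : ℕ, 1 ≤ X → ∀ i ∈ primSetM (rad m) X Y, 0 ≤ 1 / (i.1 : ℝ) ^ 2 ∧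
      (X : ℝ) ≤ (i.1 : ℝ) ∧ (i.1 : ℝ) ≤ Y ∧ H385.GoodD 2 A (i.1 : ℝ) (FA ψ₁ ψ₂ α i.1 i.2)
        (fun n => i.2 (n : ZMod i.1) * cA ψ₁ ψ₂ α n * (ArithmeticFunction.vonMangoldt n : ℂ)) := by
    intro X Y hX i hi
    obtain ⟨h1, h2, h4, h3⟩ := (mem_primSetM (rad m) X Y i).mp hi
    exact ⟨by positivity, by exact_mod_cast h1.le, by exact_mod_cast h2,
      (hgood i.1 i.2 (by omega) ((coprime_rad hm0 i.1).mp h4) h3).2.2⟩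
  have hcont : Continuous (fun u => SWu (cA ψ₁ ψ₂ α) 1 u) := by
    simp_rw [hsc]
    exact (t4 1 one_pos).const_mul 2
  have hYint : ∀ s : ℝ, 0 < s → ∃ L0 : ℝ, 0 < L0 ∧ ∀ (Λ A B T : ℝ), L0 ≤ Λ → 0 ≤ A → 0 ≤ B →
      0 ≤ T → ∫ u in (0 : ℝ)..Λ, Rw (hh τ) (u / Λ) * (A * SWu (cA ψ₁ ψ₂ α) 1 u + B * T) ≤
      A * (Real.sqrt Real.pi * Λ ^ 2 * (2 * (∫ α in (0 : ℝ)..1, α * Rw (hh τ) α) + s)) +
        B * (Rw (hh τ) 0 * Λ * T) := by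
    intro s hs
    obtain ⟨L0, hL0, h⟩ := Pool.Agent.N880.HE.Y_intE c' hS (hh τ) g0 g1 (s := s / 2) (by positivity)
    refine ⟨L0, hL0, fun Λ A B T hΛ hA hB hT => ?_⟩
    have h1 := h Λ (2 * A) B T hΛ (by positivity) hB hT
    have e1 : ∀ u, Rw (hh τ) (u / Λ) * (A * SWu (cA ψ₁ ψ₂ α) 1 u + B * T) =
      Rw (hh τ) (u / Λ) * (2 * A * SWu c' 1 u + B * T) := fun u => by rw [hsc]; ring
    simp_rw [e1]
    refine h1.trans (le_of_eq ?_)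
    ring
  have hmsq : ∀ s : ℝ, 0 < s → s ≤ 1 / 2 → ∃ K C X0 : ℝ, 1 ≤ K ∧ 0 < C ∧ 3 ≤ X0 ∧
      ∀ (X Y : ℕ) (T u : ℝ), X0 ≤ X → K * X ≤ Y → (Y : ℝ) ≤ (X : ℝ) ^ 2 →
      1 ≤ T → (Real.log (X * T)) ^ 2 ≤ T → T ≤ (X : ℝ) ^ τ → 0 ≤ u →
      u ≤ (1 - s) * ((2 + τ) / (1 + τ)) * Real.log (X * T) →
      ∫ t : ℝ, ∑ i ∈ primSetM (rad m) X Y, (1 / (i.1 : ℝ) ^ 2) *
        ‖∑' n : ℕ, (i.2 (n : ZMod i.1) * cA ψ₁ ψ₂ α n * (ArithmeticFunction.vonMangoldt n : ℂ)) *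
          ((Real.sqrt n : ℂ)⁻¹ * bt T u t (Real.log n))‖ ^ 2 ≤
      (1 + s) * (∑ i ∈ primSetM (rad m) X Y, 1 / (i.1 : ℝ) ^ 2) * (T / (2 * Real.pi)) *
          SWu (cA ψ₁ ψ₂ α) 1 u +
        C * (∑ i ∈ primSetM (rad m) X Y, 1 / (i.1 : ℝ) ^ 2) * T := by
    intro s hs hs1
    obtain ⟨K, C, X0, hK, hC, hX0, h⟩ := hms0 (rad m) (rad_squarefree m) (cA ψ₁ ψ₂ α) 2 one_le_two
      (fun n _ => cA_le ψ₁ ψ₂ α n) τ s hτ hs hs1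
    refine ⟨K, C, X0, hK, hC, hX0, ?_⟩
    intro X Y T u hX hKX _ hT1 hTL hTX hu0 hu
    have h1 := h X Y T u hX hKX hT1 hTL hTX hu0 hu
    have hWs : WM (rad m) X Y = ∑ i ∈ primSetM (rad m) X Y, (1 / (i.1 : ℝ) ^ 2) := by
      unfold WM; rw [primFamM_eq]; simp
    rw [hWs] at h1
    simp only [primFamM_eq] at h1
    exact h1
  obtain ⟨K, η, X0, hK, hη, hX0, H⟩ := coreAbs 2 A (by norm_num) hA
    (fun X Y => primSetM (rad m) X Y) (fun i => 1 / (i.1 : ℝ) ^ 2) (fun i => (i.1 : ℝ))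
    (fun i => FA ψ₁ ψ₂ α i.1 i.2)
    (fun i n => i.2 (n : ZMod i.1) * cA ψ₁ ψ₂ α n * (ArithmeticFunction.vonMangoldt n : ℂ))
    hfam (fun u => SWu (cA ψ₁ ψ₂ α) 1 u) hcont
    (fun u => Pool.Agent.N880.HE.swu1_nonneg _ _) (2 ^ 2 * Ci) (by positivity)
    (fun u hu => by
      have h1 := Pool.Agent.N880.HE.swu1_le (cA ψ₁ ψ₂ α) one_le_two (fun n _ => cA_le ψ₁ ψ₂ α n) u
      have h2 := hinner u hu
      nlinarith)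
    2 τ (hh τ) (c2 (hh τ) + ε) (by norm_num) hτ g0 g1 hYint hmsq (by
      have e1 : (2 : ℝ) * Rw (hh τ) 0 / ((2 + τ) / (1 + τ)) + 2 * ((2 + τ) / (1 + τ)) *
          (2 * ∫ α in (0 : ℝ)..1, α * Rw (hh τ) α) / 2 = c2 (hh τ) := by
        rw [← g2]
        unfold hh
        ring
      rw [e1]
      linarith)
  refine ⟨K, η, X0, hK, hη, hX0, ?_⟩
  intro X Y T a1 a2 a3 a4 a5
  obtain ⟨b0, b1, b2⟩ := H X Y T a1 a2 a3 a4 a5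
  refine ⟨fun q h1 h2 h4 χ h3 => ?_, ?_, ?_⟩
  · exact b0 ⟨q, χ⟩ ((mem_primSetM (rad m) X Y ⟨q, χ⟩).mpr ⟨h1, h2, (coprime_rad hm0 q).mpr h4, h3⟩)
  · rw [← primFamM_rad hm0, ← primFamM_rad hm0, primFamM_eq, primFamM_eq]
    exact b1
  · rw [← primFamM_rad hm0, ← primFamM_rad hm0, primFamM_eq, primFamM_eq]
    exact b2

/-- **Zeros with a fixed difference.** -/
theorem fin {m₁ m₂ : ℕ} (hm₁ : m₁ ≠ 0) (hm₂ : m₂ ≠ 0) (ψ₁ : DirichletCharacter ℂ m₁)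
    (ψ₂ : DirichletCharacter ℂ m₂) (hψ₁ : ψ₁.IsPrimitive) (hψ₂ : ψ₂.IsPrimitive) (α : ℝ)
    (hα : 0 ≤ α) (hdiff : Diff ψ₁ ψ₂ α)
    (τ ε : ℝ) (hτ : 0 ≤ τ) (hε : 0 < ε) :
    ∃ K η X0 : ℝ, 1 ≤ K ∧ 0 < η ∧ 1 ≤ X0 ∧
    ∀ (X Y : ℕ) (T : ℝ), X0 ≤ X → K * X ≤ Y → (Y : ℝ) ≤ (X : ℝ) ^ (1 + η) →
      4 * (Real.log X) ^ 2 ≤ T → T ≤ (X : ℝ) ^ τ →
      0 < primFamM (m₁ * m₂) X Y (fun q χ => ((NN (LT ψ₁ q χ) T (2 * T) +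
        NN (L2 ψ₂ α q χ) T (2 * T) : ℕ) : ℝ)) ∧
      (∀ q : ℕ, X < q → Nat.Coprime q (m₁ * m₂) → ∀ χ : DirichletCharacter ℂ q, χ.IsPrimitive →
        (zset (LT ψ₁ q χ) T (2 * T)).Finite ∧ (zset (L2 ψ₂ α q χ) T (2 * T)).Finite) ∧
      (2 - c2 (hh τ) - ε) * primFamM (m₁ * m₂) X Y (fun q χ => ((NN (LT ψ₁ q χ) T (2 * T) +
        NN (L2 ψ₂ α q χ) T (2 * T) : ℕ) : ℝ)) ≤
        primFamM (m₁ * m₂) X Y (fun q χ => ((On (LT ψ₁ q χ) (L2 ψ₂ α q χ) T +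
          On (L2 ψ₂ α q χ) (LT ψ₁ q χ) T : ℕ) : ℝ)) ∧
      (5 - 3 * c2 (hh τ) - ε) / 2 * primFamM (m₁ * m₂) X Y (fun q χ =>
        ((NN (LT ψ₁ q χ) T (2 * T) + NN (L2 ψ₂ α q χ) T (2 * T) : ℕ) : ℝ)) ≤
        primFamM (m₁ * m₂) X Y (fun q χ => ((Al (LT ψ₁ q χ) (L2 ψ₂ α q χ) T +
          Al (L2 ψ₂ α q χ) (LT ψ₁ q χ) T : ℕ) : ℝ)) ∧
      (3 - c2 (hh τ) - ε) / 2 * primFamM (m₁ * m₂) X Y (fun q χ => ((NN (LT ψ₁ q χ) T (2 * T) +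
        NN (L2 ψ₂ α q χ) T (2 * T) : ℕ) : ℝ)) ≤
        primFamM (m₁ * m₂) X Y (fun q χ => ((zset (LT ψ₁ q χ) T (2 * T) ∪
          zset (L2 ψ₂ α q χ) T (2 * T)).ncard : ℝ)) ∧
      primFamM (m₁ * m₂) X Y (fun q χ => (Cm (LT ψ₁ q χ) (L2 ψ₂ α q χ) T : ℝ)) ≤
        (c2 (hh τ) - 1 + ε) / 2 * primFamM (m₁ * m₂) X Y (fun q χ =>
          ((NN (LT ψ₁ q χ) T (2 * T) + NN (L2 ψ₂ α q χ) T (2 * T) : ℕ) : ℝ)) := by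
  have hm0 : m₁ * m₂ ≠ 0 := Nat.mul_ne_zero hm₁ hm₂
  obtain ⟨K, η, X0, hK, hη, hX0, h⟩ := core hm₁ hm₂ ψ₁ ψ₂ hψ₁ hψ₂ α hα hdiff τ (ε / 3) hτ
    (by positivity)
  obtain ⟨A', hA', hg⟩ := FA_good hm₁ hm₂ ψ₁ ψ₂ hψ₁ hψ₂ α hα
  have hm1 : (1 : ℝ) ≤ m₁ := by exact_mod_cast Nat.one_le_iff_ne_zero.2 hm₁
  have hm2 : (1 : ℝ) ≤ m₂ := by exact_mod_cast Nat.one_le_iff_ne_zero.2 hm₂
  obtain ⟨m, hm⟩ : ∃ m, m = m₁ * m₂ := ⟨_, rfl⟩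
  rw [← hm] at hm0 h hg ⊢
  have hsq := rad_squarefree m
  obtain ⟨C4, hC4, hmass⟩ := prim_mass_M (rad m) hsq
  have hc0 := cM_pos (rad m) hsq
  refine ⟨max K (Real.exp ((C4 + 1) / cM (rad m))), η, max X0 (Real.exp 1),
    le_max_of_le_left hK, hη, le_max_of_le_left hX0, ?_⟩
  intro X Y T hX hKX hY hT1 hT2
  have hXX0 : X0 ≤ X := (le_max_left _ _).trans hX
  have hXe : Real.exp 1 ≤ X := (le_max_right _ _).trans hX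
  have hX1r : (1 : ℝ) ≤ X := hX0.trans hXX0
  have hXpos : (0 : ℝ) < X := by linarith
  have hX1n : 1 ≤ X := by exact_mod_cast hX1r
  have hlog1 : 1 ≤ Real.log X := by
    rw [Real.le_log_iff_exp_le hXpos]; exact hXe
  have hT0 : 1 ≤ T := by nlinarith
  have hKX1 : K * X ≤ Y := (mul_le_mul_of_nonneg_right (le_max_left _ _) hXpos.le).trans hKX
  have hKX2 : Real.exp ((C4 + 1) / cM (rad m)) * X ≤ Y :=
    (mul_le_mul_of_nonneg_right (le_max_right _ _) hXpos.le).trans hKX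
  have hXYr : (X : ℝ) ≤ Y := by
    calc (X : ℝ) = 1 * X := (one_mul _).symm
      _ ≤ K * X := mul_le_mul_of_nonneg_right hK hXpos.le
      _ ≤ Y := hKX1
  have hXY : X ≤ Y := by exact_mod_cast hXYr
  obtain ⟨b0, b1, b2⟩ := h X Y T hXX0 hKX1 hY hT1 hT2
  have hgl : ∀ q : ℕ, X < q → Nat.Coprime q m → ∀ χ : DirichletCharacter ℂ q, χ.IsPrimitive →
      GoodL (LT ψ₁ q χ) ∧ GoodL (L2 ψ₂ α q χ) := by
    intro q hq hc χ hχ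
    obtain ⟨g1, g2, -⟩ := hg q χ (by omega) hc hχ
    have hq1 : (1 : ℝ) ≤ q := by exact_mod_cast (show 1 ≤ q by omega)
    exact ⟨H385.PerChi.goodL hA' (one_le_mul_of_one_le_of_one_le hm1 hq1) g1,
      H385.PerChi.goodL hA' (one_le_mul_of_one_le_of_one_le hm2 hq1) g2⟩
  have hcnt : ∀ q : ℕ, X < q → q ≤ Y → Nat.Coprime q m → ∀ χ : DirichletCharacter ℂ q,
      χ.IsPrimitive → _ := fun q hq _ hc χ hχ =>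
    counts (hgl q hq hc χ hχ).1 (hgl q hq hc χ hχ).2 hT0
  have hNN : primFamM m X Y (fun q χ => (NN (FA ψ₁ ψ₂ α q χ) T (2 * T) : ℝ)) =
      primFamM m X Y (fun q χ => ((NN (LT ψ₁ q χ) T (2 * T) +
        NN (L2 ψ₂ α q χ) T (2 * T) : ℕ) : ℝ)) := by
    refine fam_congr m X Y _ _ fun q hq hq2 hc χ hχ => ?_
    have := (hcnt q hq hq2 hc χ hχ).1
    show ((NN (fun s => LT ψ₁ q χ s * L2 ψ₂ α q χ s) T (2 * T) : ℕ) : ℝ) = _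
    rw [this]
  have hNs : primFamM m X Y (fun q χ => (Ns (FA ψ₁ ψ₂ α q χ) T (2 * T) : ℝ)) ≤
      primFamM m X Y (fun q χ => ((On (LT ψ₁ q χ) (L2 ψ₂ α q χ) T +
          On (L2 ψ₂ α q χ) (LT ψ₁ q χ) T : ℕ) : ℝ)) := by
    refine fam_mono m X Y _ _ fun q hq hq2 hc χ hχ => ?_
    have := (hcnt q hq hq2 hc χ hχ).2.2.1
    show ((Ns (fun s => LT ψ₁ q χ s * L2 ψ₂ α q χ s) T (2 * T) : ℕ) : ℝ) ≤ _
    exact_mod_cast this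
  have hNd : primFamM m X Y (fun q χ => (Nd (FA ψ₁ ψ₂ α q χ) T (2 * T) : ℝ)) =
      primFamM m X Y (fun q χ => ((zset (LT ψ₁ q χ) T (2 * T) ∪
          zset (L2 ψ₂ α q χ) T (2 * T)).ncard : ℝ)) := by
    refine fam_congr m X Y _ _ fun q hq hq2 hc χ hχ => ?_
    have := (hcnt q hq hq2 hc χ hχ).2.1
    show ((Nd (fun s => LT ψ₁ q χ s * L2 ψ₂ α q χ s) T (2 * T) : ℕ) : ℝ) = _
    rw [this]
  have hCm : primFamM m X Y (fun q χ => (Cm (LT ψ₁ q χ) (L2 ψ₂ α q χ) T : ℝ)) +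
      primFamM m X Y (fun q χ => (Nd (FA ψ₁ ψ₂ α q χ) T (2 * T) : ℝ)) ≤
      primFamM m X Y (fun q χ => ((NN (LT ψ₁ q χ) T (2 * T) +
        NN (L2 ψ₂ α q χ) T (2 * T) : ℕ) : ℝ)) := by
    rw [← fam_add]
    refine fam_mono m X Y _ _ fun q hq hq2 hc χ hχ => ?_
    have := (hcnt q hq hq2 hc χ hχ).2.2.2
    show (Cm (LT ψ₁ q χ) (L2 ψ₂ α q χ) T : ℝ) +
      ((Nd (fun s => LT ψ₁ q χ s * L2 ψ₂ α q χ s) T (2 * T) : ℕ) : ℝ) ≤ _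
    exact_mod_cast this
  have hlin : ∀ (a b : ℝ) (f g : (q : ℕ) → DirichletCharacter ℂ q → ℝ),
      primFamM m X Y (fun q χ => a * f q χ - b * g q χ) =
        a * primFamM m X Y f - b * primFamM m X Y g := fun a b f g =>
    H385.primFamM_lin m X Y a b f g
  have hmul : ∀ (a : ℝ) (f : (q : ℕ) → DirichletCharacter ℂ q → ℝ),
      primFamM m X Y (fun q χ => a * f q χ) = a * primFamM m X Y f := by
    intro a f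
    have h1 := hlin a 0 f f
    simp only [zero_mul, sub_zero] at h1
    exact h1
  have hAl : 3 * primFamM m X Y (fun q χ => (Ns (FA ψ₁ ψ₂ α q χ) T (2 * T) : ℝ)) ≤
      primFamM m X Y (fun q χ => (NN (FA ψ₁ ψ₂ α q χ) T (2 * T) : ℝ)) +
      2 * primFamM m X Y (fun q χ => ((Al (LT ψ₁ q χ) (L2 ψ₂ α q χ) T +
          Al (L2 ψ₂ α q χ) (LT ψ₁ q χ) T : ℕ) : ℝ)) := by
    rw [← hmul, ← hmul, ← fam_add]
    refine fam_mono m X Y _ _ fun q hq hq2 hc χ hχ => ?_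
    have := once (hgl q hq hc χ hχ).1 (hgl q hq hc χ hχ).2 hT0
    show 3 * ((Ns (fun s => LT ψ₁ q χ s * L2 ψ₂ α q χ s) T (2 * T) : ℕ) : ℝ) ≤
      ((NN (fun s => LT ψ₁ q χ s * L2 ψ₂ α q χ s) T (2 * T) : ℕ) : ℝ) + _
    exact_mod_cast this
  have hW1 : 1 ≤ primFamM m X Y (fun _ _ => 1) := by
    rw [← primFamM_rad hm0]
    have h1 := (abs_le.mp (hmass X Y hX1n hXY)).1
    have h2 : (C4 + 1) / cM (rad m) ≤ Real.log ((Y : ℝ) / X) := by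
      have hYpos : (0 : ℝ) < Y := lt_of_lt_of_le hXpos hXYr
      rw [Real.le_log_iff_exp_le (div_pos hYpos hXpos), le_div_iff₀ hXpos]
      exact hKX2
    rw [div_le_iff₀ hc0] at h2
    linarith
  have hNpos : 0 < primFamM m X Y (fun q χ => (NN (FA ψ₁ ψ₂ α q χ) T (2 * T) : ℝ)) := by
    refine lt_of_lt_of_le (lt_of_lt_of_le one_pos hW1) ?_
    exact fam_mono m X Y _ _ fun q hq hq2 hc χ hχ => b0 q hq hq2 hc χ hχ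
  have f1 := hlin 2 1 (fun q χ => (NN (FA ψ₁ ψ₂ α q χ) T (2 * T) : ℝ))
    (fun q χ => (Ns (FA ψ₁ ψ₂ α q χ) T (2 * T) : ℝ))
  have f2 := hlin 3 2 (fun q χ => (NN (FA ψ₁ ψ₂ α q χ) T (2 * T) : ℝ))
    (fun q χ => (Nd (FA ψ₁ ψ₂ α q χ) T (2 * T) : ℝ))
  simp only [one_mul] at f1
  rw [f1] at b1
  rw [f2] at b2
  rw [hNN] at b1 b2 hNpos hAl
  rw [hNd] at b2 hCm
  have hεN := mul_pos hε hNpos
  refine ⟨hNpos, fun q hq hc χ hχ => ⟨H370.zset_finite (hgl q hq hc χ hχ).1 T _ hT0,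
    H370.zset_finite (hgl q hq hc χ hχ).2 T _ hT0⟩, ?_, lin1 b1 hAl, ?_, ?_⟩
  · linarith
  · linarith
  · linarith

end Pool.Agent.V8H24.LI
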